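import Pool.Agent.H575.ESB.StmK
import Pool.Graph.R_pool_sql_team_seeded_3997aac3.Q286.EQ.MW

/-! The rank of an elliptic curve over an elementary abelian 2-extension (job ESB-MQR of helper575). -/

set_option autoImplicit false

namespace Pool.Agent.H747.ESB

open WeierstrassCurve
open Pool.Agent.H575.ES (tw)
open scoped Classical

/-! ### Abstract part: characters of a group of exponent two -/

section Abs

/-- **The sum over the characters.** -/
theorem abs_sum {G A : Type} [CommGroup G] [Finite G] (hG : ∀ g : G, g * g = 1) [AddCommGroup A]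
    (φ : G →* AddMonoid.End A) (N : AddSubgroup A)
    (hN : ∀ e : G →* ℤˣ, ∀ P : A, (∀ g, φ g P = (e g : ℤ) • P) → P ∈ N) (P : A) :
    (Nat.card G : ℤ) • P ∈ N := by
  have := Fintype.ofFinite G
  let ψs := AddChar (Additive G) ℂ
  have hval : ∀ (ψ : ψs) (g : G), ψ (Additive.ofMul g) = 1 ∨ ψ (Additive.ofMul g) = -1 := by
    intro ψ g
    have h1 : ψ (Additive.ofMul g) * ψ (Additive.ofMul g) = 1 := by
      rw [← AddChar.map_add_eq_mul, ← ofMul_mul, hG, ofMul_one, AddChar.map_zero_eq_one]
    exact mul_self_eq_one_iff.1 h1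
  have hex : ∀ ψ : ψs, ∃ e : G →* ℤˣ, ∀ g, (((e g : ℤ)) : ℂ) = ψ (Additive.ofMul g) := by
    intro ψ
    let e : G → ℤˣ := fun g => if ψ (Additive.ofMul g) = 1 then 1 else -1
    have he : ∀ g, (((e g : ℤ)) : ℂ) = ψ (Additive.ofMul g) := by
      intro g
      rcases hval ψ g with h | h
      · simp [e, h]
      · have : ¬ ((-1 : ℂ) = 1) := by norm_num
        simp [e, h, this]
    have hinj : ∀ a b : ℤˣ, (((a : ℤ)) : ℂ) = (((b : ℤ)) : ℂ) → a = b := by
      intro a b h
      exact Units.ext (by exact_mod_cast h)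
    refine ⟨{ toFun := e, map_one' := ?_, map_mul' := ?_ }, he⟩
    · apply hinj
      rw [he, ofMul_one, AddChar.map_zero_eq_one]
      simp
    · intro x y
      apply hinj
      rw [he, ofMul_mul, AddChar.map_add_eq_mul, ← he, ← he]
      push_cast
      rfl
  choose e he using hex
  let Q : ψs → A := fun ψ => ∑ g : G, (e ψ g : ℤ) • φ g P
  have hQ : ∀ ψ, Q ψ ∈ N := by
    intro ψ
    refine hN (e ψ) _ ?_
    intro g
    have h1 : φ g (Q ψ) = ∑ h : G, (e ψ h : ℤ) • φ (g * h) P := by
      change φ g (∑ h : G, (e ψ h : ℤ) • φ h P) = _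
      rw [map_sum]
      refine Finset.sum_congr rfl fun h _ => ?_
      rw [map_zsmul, map_mul]
      rfl
    rw [h1]
    change _ = (e ψ g : ℤ) • ∑ h : G, (e ψ h : ℤ) • φ h P
    rw [Finset.smul_sum, ← Equiv.sum_comp (Equiv.mulLeft g)
      (fun h => (e ψ g : ℤ) • ((e ψ h : ℤ) • φ h P))]
    refine Finset.sum_congr rfl fun h _ => ?_
    rw [smul_smul]
    change _ = ((e ψ g : ℤ) * (e ψ (g * h) : ℤ)) • φ (g * h) P
    congr 1
    rw [map_mul]
    have h2 : (e ψ g) * (e ψ g) = 1 := by rw [← map_mul, hG, map_one]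
    have h3 : (e ψ g : ℤ) * (e ψ g : ℤ) = 1 := by
      rw [← Units.val_mul, h2, Units.val_one]
    push_cast
    rw [← mul_assoc, h3, one_mul]
  have hsum : ∑ ψ : ψs, Q ψ = (Nat.card G : ℤ) • P := by
    change ∑ ψ : ψs, ∑ g : G, (e ψ g : ℤ) • φ g P = _
    rw [Finset.sum_comm]
    have h4 : ∀ g : G, ∑ ψ : ψs, (e ψ g : ℤ) = if g = 1 then (Nat.card G : ℤ) else 0 := by
      intro g
      have h5 := AddChar.sum_apply_eq_ite (α := Additive G) (Additive.ofMul g)
      have h6 : ((∑ ψ : ψs, (e ψ g : ℤ) : ℤ) : ℂ) = ((if g = 1 then (Nat.card G : ℤ) else 0 : ℤ) : ℂ) := by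
        push_cast
        rw [Finset.sum_congr rfl fun ψ _ => he ψ g, h5]
        by_cases hg : g = 1
        · have : Additive.ofMul g = 0 := by rw [hg, ofMul_one]
          rw [if_pos this, if_pos hg, ← Nat.card_eq_fintype_card]
          rfl
        · have : ¬ Additive.ofMul g = 0 := fun h => hg (by simpa using h)
          rw [if_neg this, if_neg hg]
      exact_mod_cast h6
    rw [Finset.sum_congr rfl fun g _ => (Finset.sum_smul (R := ℤ)).symm]
    rw [Finset.sum_congr rfl fun g _ => by rw [h4 g]]
    rw [Finset.sum_eq_single 1]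
    · rw [if_pos rfl, map_one]
      rfl
    · intro g _ hg
      rw [if_neg hg, zero_smul]
    · intro h
      exact absurd (Finset.mem_univ _) h
  rw [← hsum]
  exact sum_mem fun ψ _ => hQ ψ

/-- Dedekind: every character occurs in the field. -/
theorem exists_eigen {F M : Type} [Field F] [Field M] [Algebra F M] [FiniteDimensional F M]
    (hG : ∀ g : M ≃ₐ[F] M, g * g = 1) (e : (M ≃ₐ[F] M) →* ℤˣ) :
    ∃ s : M, s ≠ 0 ∧ ∀ g : M ≃ₐ[F] M, g s = ((e g : ℤ) : M) * s := by
  have hli := (linearIndependent_monoidHom M M).comp (fun g : M ≃ₐ[F] M => ((g : M →ₐ[F] M) : M →* M))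
    (by
      intro g h hgh
      ext x
      exact DFunLike.congr_fun hgh x)
  rw [Fintype.linearIndependent_iff] at hli
  have hne : ∃ x : M, ∑ g : M ≃ₐ[F] M, ((e g : ℤ) : M) * g x ≠ 0 := by
    by_contra hcon
    push Not at hcon
    have h1 := hli (fun g => ((e g : ℤ) : M)) (by
      ext x
      have := hcon x
      simp only [Finset.sum_apply, Pi.smul_apply, smul_eq_mul, Pi.zero_apply]
      exact this) 1
    simp at h1
  obtain ⟨x, hx⟩ := hne
  refine ⟨_, hx, ?_⟩
  intro g
  rw [map_sum, Finset.mul_sum, ← Equiv.sum_comp (Equiv.mulLeft g)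
    (fun h => ((e g : ℤ) : M) * (((e h : ℤ) : M) * h x))]
  refine Finset.sum_congr rfl fun h _ => ?_
  change g (((e h : ℤ) : M) * h x) = ((e g : ℤ) : M) * (((e (g * h) : ℤ) : M) * g (h x))
  rw [map_mul, map_intCast, ← mul_assoc, map_mul]
  have h2 : (e g) * (e g) = 1 := by rw [← map_mul, hG, map_one]
  have h3 : ((e g : ℤ) : M) * ((e g : ℤ) : M) = 1 := by
    have h4 : (e g : ℤ) * (e g : ℤ) = 1 := by
      rw [← Units.val_mul, h2, Units.val_one]
    rw [← Int.cast_mul, h4, Int.cast_one]
  push_cast
  rw [← mul_assoc, h3, one_mul]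

end Abs

/-! ### the homomorphisms -/

section Hm

variable {F M : Type} [Field F] [Field M]

theorem cv_eq (a b x y : F) : (⟨0, 0, 0, a, b⟩ : WeierstrassCurve F).toAffine.Equation x y ↔
    y ^ 2 = x ^ 3 + a * x + b := by
  rw [Affine.equation_iff]
  constructor
  · intro h
    linear_combination h
  · intro h
    linear_combination h

theorem cv_ns (a b x y : F) : (⟨0, 0, 0, a, b⟩ : WeierstrassCurve F).toAffine.Nonsingular x y ↔
    y ^ 2 = x ^ 3 + a * x + b ∧ (3 * x ^ 2 + a ≠ 0 ∨ 2 * y ≠ 0) := by
  rw [Affine.nonsingular_iff, cv_eq]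
  refine and_congr_right fun _ => or_congr ?_ ?_
  · simp only [zero_mul, mul_zero, add_zero]
    exact ne_comm
  · simp only [zero_mul, sub_zero]
    constructor
    · intro h h2
      exact h (by linear_combination h2)
    · intro h h2
      exact h (by linear_combination h2)

theorem cv_negY (a b x y : F) : (⟨0, 0, 0, a, b⟩ : WeierstrassCurve F).toAffine.negY x y = -y := by
  simp [Affine.negY]

theorem hm_ns (f : F →+* M) (u : M) (hu : u ≠ 0) (a b : F) (A B : M)
    (hA : A = u ^ 4 * f a) (hB : B = u ^ 6 * f b) (x y : F)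
    (h : (⟨0, 0, 0, a, b⟩ : WeierstrassCurve F).toAffine.Nonsingular x y) :
    (⟨0, 0, 0, A, B⟩ : WeierstrassCurve M).toAffine.Nonsingular (u ^ 2 * f x) (u ^ 3 * f y) := by
  rw [cv_ns] at h ⊢
  obtain ⟨h1, h2⟩ := h
  have h1' : (f y) ^ 2 = (f x) ^ 3 + f a * f x + f b := by
    rw [← map_pow, h1]
    simp
  refine ⟨?_, ?_⟩
  · rw [hA, hB]
    linear_combination u ^ 6 * h1'
  · rcases h2 with h2 | h2
    · left
      have h3 : f (3 * x ^ 2 + a) ≠ 0 := (map_ne_zero f).2 h2
      intro h4
      apply h3
      have h5 : u ^ 4 * f (3 * x ^ 2 + a) = 0 := by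
        rw [← h4, hA]
        simp only [map_add, map_mul, map_pow, map_ofNat]
        ring
      exact (mul_eq_zero.1 h5).resolve_left (pow_ne_zero 4 hu)
    · right
      have h3 : f (2 * y) ≠ 0 := (map_ne_zero f).2 h2
      intro h4
      apply h3
      have h5 : u ^ 3 * f (2 * y) = 0 := by
        rw [← h4]
        simp only [map_mul, map_ofNat]
        ring
      exact (mul_eq_zero.1 h5).resolve_left (pow_ne_zero 3 hu)

/-- the map on the points -/
noncomputable def hmF (f : F →+* M) (u : M) (hu : u ≠ 0) (a b : F) (A B : M)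
    (hA : A = u ^ 4 * f a) (hB : B = u ^ 6 * f b) :
    (⟨0, 0, 0, a, b⟩ : WeierstrassCurve F).toAffine.Point →
      (⟨0, 0, 0, A, B⟩ : WeierstrassCurve M).toAffine.Point
  | .zero => .zero
  | .some x y h => .some (u ^ 2 * f x) (u ^ 3 * f y) (hm_ns f u hu a b A B hA hB x y h)

theorem some_congr {W : WeierstrassCurve M} {x x' y y' : M} (h : W.toAffine.Nonsingular x y)
    (h' : W.toAffine.Nonsingular x' y') (hx : x = x') (hy : y = y') :
    Affine.Point.some x y h = Affine.Point.some x' y' h' := by
  subst hx hy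
  rfl

/-- the homomorphism `(x, y) ↦ (u² f x, u³ f y)` -/
noncomputable def hm (f : F →+* M) (u : M) (hu : u ≠ 0) (a b : F) (A B : M)
    (hA : A = u ^ 4 * f a) (hB : B = u ^ 6 * f b) :
    (⟨0, 0, 0, a, b⟩ : WeierstrassCurve F).toAffine.Point →+
      (⟨0, 0, 0, A, B⟩ : WeierstrassCurve M).toAffine.Point where
  toFun := hmF f u hu a b A B hA hB
  map_zero' := rfl
  map_add' := by
    rintro (_ | ⟨x₁, y₁, h₁⟩) (_ | ⟨x₂, y₂, h₂⟩)
    any_goals rfl
    have hu2 := pow_ne_zero 2 hu
    have hu3 := pow_ne_zero 3 hu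
    by_cases hxy : x₁ = x₂ ∧ y₁ = (⟨0, 0, 0, a, b⟩ : WeierstrassCurve F).toAffine.negY x₂ y₂
    · rw [Affine.Point.add_of_Y_eq hxy.1 hxy.2]
      change _ = Affine.Point.some _ _ _ + Affine.Point.some _ _ _
      rw [Affine.Point.add_of_Y_eq]
      · rfl
      · rw [hxy.1]
      · rw [cv_negY, hxy.2, cv_negY, map_neg]
        ring
    · have hxy' : ¬ (u ^ 2 * f x₁ = u ^ 2 * f x₂ ∧ u ^ 3 * f y₁ =
          (⟨0, 0, 0, A, B⟩ : WeierstrassCurve M).toAffine.negY (u ^ 2 * f x₂) (u ^ 3 * f y₂)) := by
        rintro ⟨g1, g2⟩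
        apply hxy
        refine ⟨f.injective (mul_left_cancel₀ hu2 g1), ?_⟩
        rw [cv_negY] at g2 ⊢
        apply f.injective
        rw [map_neg]
        apply mul_left_cancel₀ hu3
        rw [g2]
        ring
      have hsl : (⟨0, 0, 0, A, B⟩ : WeierstrassCurve M).toAffine.slope (u ^ 2 * f x₁) (u ^ 2 * f x₂)
          (u ^ 3 * f y₁) (u ^ 3 * f y₂) =
          u * f ((⟨0, 0, 0, a, b⟩ : WeierstrassCurve F).toAffine.slope x₁ x₂ y₁ y₂) := by
        by_cases hx : x₁ = x₂
        · have hy : y₁ ≠ (⟨0, 0, 0, a, b⟩ : WeierstrassCurve F).toAffine.negY x₂ y₂ :=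
            fun h => hxy ⟨hx, h⟩
          have hy' : u ^ 3 * f y₁ ≠ (⟨0, 0, 0, A, B⟩ : WeierstrassCurve M).toAffine.negY
              (u ^ 2 * f x₂) (u ^ 3 * f y₂) := fun h => hxy' ⟨by rw [hx], h⟩
          rw [Affine.slope_of_Y_ne hx hy, Affine.slope_of_Y_ne (by rw [hx]) hy']
          rw [cv_negY, cv_negY]
          simp only [mul_zero, zero_mul, add_zero, sub_zero, map_div₀, map_add, map_mul, map_pow,
            sub_neg_eq_add, map_ofNat]
          rw [hA]
          have h2 : f y₁ + f y₁ ≠ 0 := by
            intro h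
            have hy2 : y₂ = y₁ := by
              have e1 := (cv_ns a b x₁ y₁).1 h₁
              have e2 := (cv_ns a b x₂ y₂).1 h₂
              rw [cv_negY] at hy
              have e3 : (y₁ - y₂) * (y₁ + y₂) = 0 := by
                have e4 : y₁ ^ 2 = y₂ ^ 2 := by rw [e1.1, e2.1, hx]
                linear_combination e4
              rcases mul_eq_zero.1 e3 with e | e
              · exact (sub_eq_zero.1 e).symm
              · exact absurd (eq_neg_of_add_eq_zero_left e) hy
            apply hy
            rw [cv_negY, hy2]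
            apply f.injective
            rw [map_neg]
            exact eq_neg_of_add_eq_zero_left h
          have h3 : u ^ 3 * f y₁ + u ^ 3 * f y₁ ≠ 0 := by
            rw [← mul_add]
            exact mul_ne_zero hu3 h2
          field_simp
        · have hx' : u ^ 2 * f x₁ ≠ u ^ 2 * f x₂ := fun h => hx (f.injective (mul_left_cancel₀ hu2 h))
          rw [Affine.slope_of_X_ne hx, Affine.slope_of_X_ne hx']
          have h2 : f x₁ - f x₂ ≠ 0 := by
            rw [sub_ne_zero]
            exact fun h => hx (f.injective h)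
          have h3 : u ^ 2 * f x₁ - u ^ 2 * f x₂ ≠ 0 := sub_ne_zero.2 hx'
          rw [map_div₀, map_sub, map_sub]
          field_simp
      rw [Affine.Point.add_some hxy]
      change Affine.Point.some _ _ _ = Affine.Point.some _ _ _ + Affine.Point.some _ _ _
      rw [Affine.Point.add_some hxy']
      apply some_congr
      · rw [Affine.addX, Affine.addX, hsl]
        simp only [zero_mul, add_zero, sub_zero, map_pow, map_sub]
        ring
      · rw [Affine.addY, Affine.addY, Affine.negAddY, Affine.negAddY, cv_negY, cv_negY, Affine.addX,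
          Affine.addX, hsl]
        simp only [zero_mul, add_zero, sub_zero, map_add, map_mul, map_pow, map_sub, map_neg]
        ring

end Hm

section Main

variable {F M : Type} [Field F] [Field M] [Algebra F M]

/-- the curve over `M` -/
abbrev EM (M : Type) [Field M] [Algebra F M] (A B : F) : WeierstrassCurve M :=
  ⟨0, 0, 0, algebraMap F M A, algebraMap F M B⟩

/-- the action of an automorphism -/
noncomputable def ac (A B : F) (g : M ≃ₐ[F] M) :
    (EM M A B).toAffine.Point →+ (EM M A B).toAffine.Point :=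
  hm (g : M →+* M) 1 one_ne_zero (algebraMap F M A) (algebraMap F M B) (algebraMap F M A)
    (algebraMap F M B) (by simp) (by simp)

theorem ac_some (A B : F) (g : M ≃ₐ[F] M) (x y : M) (h : (EM M A B).toAffine.Nonsingular x y) :
    ∃ h', ac A B g (Affine.Point.some x y h) = Affine.Point.some (g x) (g y) h' := by
  have h1 := hm_ns (g : M →+* M) 1 one_ne_zero (algebraMap F M A) (algebraMap F M B) (algebraMap F M A)
    (algebraMap F M B) (by simp) (by simp) x y h
  have h2 : (EM M A B).toAffine.Nonsingular (g x) (g y) := by simpa using h1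
  refine ⟨h2, ?_⟩
  change Affine.Point.some _ _ _ = _
  exact some_congr _ _ (by simp) (by simp)

/-- the action as a homomorphism -/
noncomputable def acH (A B : F) : (M ≃ₐ[F] M) →* AddMonoid.End (EM M A B).toAffine.Point where
  toFun := ac A B
  map_one' := by
    ext P
    match P with
    | .zero => exact map_zero _
    | .some x y h =>
      obtain ⟨h', e⟩ := ac_some A B (1 : M ≃ₐ[F] M) x y h
      exact e
  map_mul' g k := by
    ext P
    match P with
    | .zero => exact (map_zero _).trans (map_zero _).symm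
    | .some x y h =>
      obtain ⟨h', e⟩ := ac_some A B (g * k) x y h
      obtain ⟨h'', e'⟩ := ac_some A B k x y h
      obtain ⟨h3, e3⟩ := ac_some A B g (k x) (k y) h''
      change ac A B (g * k) (Affine.Point.some x y h) = ac A B g (ac A B k (Affine.Point.some x y h))
      rw [e, e', e3]
      rfl

theorem sq_aux {d : F} {r : M} (hr : r ^ 2 = algebraMap F M d) (A : F) (hd : d ≠ 0) :
    algebraMap F M A = r⁻¹ ^ 4 * algebraMap F M (A * d ^ 2) := by
  have hr0 : r ≠ 0 := by
    rintro rfl
    apply hd
    apply (algebraMap F M).injective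
    rw [← hr, map_zero]
    ring
  rw [map_mul, map_pow, ← hr]
  field_simp

theorem sq_aux' {d : F} {r : M} (hr : r ^ 2 = algebraMap F M d) (B : F) (hd : d ≠ 0) :
    algebraMap F M B = r⁻¹ ^ 6 * algebraMap F M (B * d ^ 3) := by
  have hr0 : r ≠ 0 := by
    rintro rfl
    apply hd
    apply (algebraMap F M).injective
    rw [← hr, map_zero]
    ring
  rw [map_mul, map_pow, ← hr]
  field_simp

theorem sq_ne {d : F} {r : M} (hr : r ^ 2 = algebraMap F M d) (hd : d ≠ 0) : r⁻¹ ≠ 0 := by
  have hr0 : r ≠ 0 := by
    rintro rfl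
    apply hd
    apply (algebraMap F M).injective
    rw [← hr, map_zero]
    ring
  exact inv_ne_zero hr0

/-- the homomorphism from the twist -/
noncomputable def twH (A B d : F) (hd : d ≠ 0) (r : M) (hr : r ^ 2 = algebraMap F M d) :
    (tw A B d).toAffine.Point →+ (EM M A B).toAffine.Point :=
  hm (algebraMap F M) r⁻¹ (sq_ne hr hd) (A * d ^ 2) (B * d ^ 3) (algebraMap F M A)
    (algebraMap F M B) (sq_aux hr A hd) (sq_aux' hr B hd)

theorem desc [FiniteDimensional F M] [IsGalois F M] (A B d : F) (hd : d ≠ 0) (r : M)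
    (hr : r ^ 2 = algebraMap F M d) (e : (M ≃ₐ[F] M) →* ℤˣ) (her : ∀ g : M ≃ₐ[F] M, g r = ((e g : ℤ) : M) * r)
    (P : (EM M A B).toAffine.Point) (hP : ∀ g : M ≃ₐ[F] M, ac A B g P = (e g : ℤ) • P) :
    P ∈ (twH A B d hd r hr).range := by
  match P with
  | .zero => exact zero_mem _
  | .some x y h =>
    have hr0 : r ≠ 0 := by
      have := sq_ne hr hd
      intro h0
      exact this (by rw [h0, inv_zero])
    have key : ∀ g : M ≃ₐ[F] M, g x = x ∧ g y = ((e g : ℤ) : M) * y := by
      intro g
      obtain ⟨h', e'⟩ := ac_some A B g x y h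
      have h1 := hP g
      rw [e'] at h1
      rcases Int.units_eq_one_or (e g) with h2 | h2
      · rw [h2, Units.val_one, one_smul] at h1
        have h3 := Affine.Point.some.inj h1
        rw [h2]
        exact ⟨h3.1, by simpa using h3.2⟩
      · rw [h2, Units.val_neg, Units.val_one, neg_one_smul, Affine.Point.neg_some] at h1
        have h3 := Affine.Point.some.inj h1
        rw [cv_negY] at h3
        rw [h2]
        exact ⟨h3.1, by simpa using h3.2⟩
    obtain ⟨x0, hx0⟩ := (IsGalois.mem_range_algebraMap_iff_fixed x).2 fun g => (key g).1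
    obtain ⟨z0, hz0⟩ := (IsGalois.mem_range_algebraMap_iff_fixed (r * y)).2 fun g => by
      rw [map_mul, her, (key g).2]
      rcases Int.units_eq_one_or (e g) with h2 | h2
      · rw [h2]
        simp
      · rw [h2]
        simp
    have hy : y = z0 • r⁻¹ := by
      rw [Algebra.smul_def, hz0]
      field_simp
    have hns : (tw A B d).toAffine.Nonsingular (d * x0) (d * z0) := by
      rw [cv_ns] at h
      unfold tw
      rw [cv_ns]
      obtain ⟨h1, h2⟩ := h
      have h1' : z0 ^ 2 = d * (x0 ^ 3 + A * x0 + B) := by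
        apply (algebraMap F M).injective
        rw [map_pow, hz0, mul_pow, h1, hr, map_mul, map_add, map_add, map_mul, map_pow, hx0]
      refine ⟨?_, ?_⟩
      · linear_combination d ^ 2 * h1'
      · rcases h2 with h2 | h2
        · left
          intro h3
          apply h2
          have h4 : d ^ 2 * (3 * x0 ^ 2 + A) = 0 := by linear_combination h3
          have h5 := (mul_eq_zero.1 h4).resolve_left (pow_ne_zero 2 hd)
          have h6 := congrArg (algebraMap F M) h5
          rw [map_add, map_mul, map_pow, map_ofNat, hx0, map_zero] at h6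
          exact h6
        · right
          intro h3
          apply h2
          have h4 : d * (2 * z0) = 0 := by linear_combination h3
          have h5 := (mul_eq_zero.1 h4).resolve_left hd
          have h6 := congrArg (algebraMap F M) h5
          rw [map_mul, map_ofNat, hz0, map_zero] at h6
          have h7 : r * (2 * y) = 0 := by linear_combination h6
          exact (mul_eq_zero.1 h7).resolve_left hr0
    refine ⟨Affine.Point.some (d * x0) (d * z0) hns, ?_⟩
    change Affine.Point.some _ _ _ = _
    apply some_congr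
    · rw [map_mul, hx0, ← hr]
      field_simp
    · rw [map_mul, hz0, ← hr]
      field_simp

/-- **The rank over an elementary abelian 2-extension.** -/
theorem mqr : Pool.Agent.H575.ESB.S_MQR := by
  intro F M _ _ _ _ _ hgal hG n d hd hsq A B hAB
  have hfd : FiniteDimensional F M := inferInstance
  have hAB' : 4 * (algebraMap F M A) ^ 3 + 27 * (algebraMap F M B) ^ 2 ≠ 0 := by
    intro h
    apply hAB
    apply (algebraMap F M).injective
    rw [map_zero, ← h]
    simp only [map_add, map_mul, map_pow, map_ofNat]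
  have hfgM : AddGroup.FG (EM M A B).toAffine.Point := by
    refine Pool.Agent.Q286.EQ.mordell_weil M _ ?_
    intro h
    apply hAB'
    have h1 : (EM M A B).Δ = -16 * (4 * (algebraMap F M A) ^ 3 + 27 * (algebraMap F M B) ^ 2) := by
      simp only [WeierstrassCurve.Δ, WeierstrassCurve.b₂, WeierstrassCurve.b₄, WeierstrassCurve.b₆,
        WeierstrassCurve.b₈]
      ring
    rw [h1] at h
    rcases mul_eq_zero.1 h with h2 | h2
    · norm_num at h2
    · exact h2
  have hfgF : ∀ i, AddGroup.FG (tw A B (d i)).toAffine.Point := by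
    intro i
    refine Pool.Agent.Q286.EQ.mordell_weil F _ ?_
    intro h
    apply hAB
    have h1 : (tw A B (d i)).Δ = -16 * (d i) ^ 6 * (4 * A ^ 3 + 27 * B ^ 2) := by
      simp only [tw, WeierstrassCurve.Δ, WeierstrassCurve.b₂, WeierstrassCurve.b₄, WeierstrassCurve.b₆,
        WeierstrassCurve.b₈]
      ring
    rw [h1] at h
    rcases mul_eq_zero.1 h with h2 | h2
    · rcases mul_eq_zero.1 h2 with h3 | h3
      · norm_num at h3
      · exact absurd h3 (pow_ne_zero 6 (hd i))
    · exact h2
  change Module.finrank ℤ (EM M A B).toAffine.Point ≤ _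
  have hMf : Module.Finite ℤ (EM M A B).toAffine.Point := Module.Finite.iff_addGroup_fg.2 hfgM
  have hFf : ∀ i, Module.Finite ℤ (tw A B (d i)).toAffine.Point :=
    fun i => Module.Finite.iff_addGroup_fg.2 (hfgF i)
  let ps : ∀ i, (tw A B (d i)).toAffine.Point →+ (EM M A B).toAffine.Point := fun i =>
    if h : ∃ r : M, r ^ 2 = algebraMap F M (d i) then twH A B (d i) (hd i) h.choose h.choose_spec else 0
  let R : Fin n → Submodule ℤ (EM M A B).toAffine.Point := fun i => LinearMap.range (ps i).toIntLinearMap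
  have hRle : ∀ i, Module.finrank ℤ (R i) ≤ Module.finrank ℤ (tw A B (d i)).toAffine.Point :=
    fun i => LinearMap.finrank_range_le _
  have hsup : ∀ s : Finset (Fin n), Module.finrank ℤ (s.sup R : Submodule ℤ (EM M A B).toAffine.Point) ≤
      ∑ i ∈ s, Module.finrank ℤ (R i) := by
    intro s
    induction s using Finset.induction_on with
    | empty =>
      rw [Finset.sup_empty, Finset.sum_empty]
      simp
    | insert i s hi ih =>
      rw [Finset.sup_insert, Finset.sum_insert hi]
      refine le_trans ?_ (Nat.add_le_add_left ih _)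
      have h1 := Submodule.rank_add_le_rank_add_rank (R i) (s.sup R)
      have f1 : ∀ N : Submodule ℤ (EM M A B).toAffine.Point, (Module.finrank ℤ N : Cardinal) =
        Module.rank ℤ N := fun N => Module.finrank_eq_rank ℤ N
      rw [← f1, ← f1, ← f1] at h1
      exact_mod_cast h1
  have hmain : Module.finrank ℤ (EM M A B).toAffine.Point ≤
      Module.finrank ℤ (Finset.univ.sup R : Submodule ℤ (EM M A B).toAffine.Point) := by
    by_contra hcon
    push Not at hcon
    obtain ⟨P, hP⟩ := Submodule.exists_of_finrank_lt _ hcon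
    have hcomm : ∀ g h : M ≃ₐ[F] M, g * h = h * g := by
      intro g h
      have h1 := hG (g * h)
      have hg : g⁻¹ = g := inv_eq_of_mul_eq_one_left (hG g)
      have hh : h⁻¹ = h := inv_eq_of_mul_eq_one_left (hG h)
      have h2 : g * h = (g * h)⁻¹ := eq_inv_of_mul_eq_one_left h1
      rw [h2, mul_inv_rev, hg, hh]
    let _ : CommGroup (M ≃ₐ[F] M) := { (inferInstance : Group (M ≃ₐ[F] M)) with mul_comm := hcomm }
    refine hP (Nat.card (M ≃ₐ[F] M) : ℤ) (by exact_mod_cast Nat.card_pos.ne') ?_
    refine abs_sum hG (acH A B) (Finset.univ.sup R : Submodule ℤ (EM M A B).toAffine.Point).toAddSubgroup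
      ?_ P
    intro e Q hQ
    obtain ⟨s, hs0, hs⟩ := exists_eigen hG e
    obtain ⟨c, hc⟩ := (IsGalois.mem_range_algebraMap_iff_fixed (s ^ 2)).2 fun g => by
      rw [map_pow, hs]
      rcases Int.units_eq_one_or (e g) with h2 | h2
      · rw [h2]
        simp
      · rw [h2]
        simp
    obtain ⟨i, t, hct⟩ := hsq s c hs0 hc.symm
    have ht0 : t ≠ 0 := by
      rintro rfl
      apply hs0
      have : s ^ 2 = 0 := by rw [← hc, hct]; simp
      exact pow_eq_zero_iff (two_ne_zero) |>.1 this
    have ht0' : algebraMap F M t ≠ 0 := (map_ne_zero _).2 ht0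
    have hex : ∃ r : M, r ^ 2 = algebraMap F M (d i) := by
      refine ⟨s / algebraMap F M t, ?_⟩
      rw [div_pow, ← hc, hct, map_mul, map_pow]
      field_simp
    have hmem : Q ∈ (twH A B (d i) (hd i) hex.choose hex.choose_spec).range := by
      refine desc A B (d i) (hd i) _ hex.choose_spec e ?_ Q hQ
      have hr := hex.choose_spec
      generalize hex.choose = r at hr
      intro g
      have h1 : (r * algebraMap F M t) ^ 2 = s ^ 2 := by
        rw [mul_pow, hr, ← hc, hct, map_mul, map_pow]
      have h2 : r = s / algebraMap F M t ∨ r = -(s / algebraMap F M t) := by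
        rcases sq_eq_sq_iff_eq_or_eq_neg.1 h1 with h | h
        · left
          rw [← h]
          field_simp
        · right
          rw [← neg_div, ← h]
          field_simp
      have h3 : g (s / algebraMap F M t) = ((e g : ℤ) : M) * (s / algebraMap F M t) := by
        rw [map_div₀, AlgEquiv.commutes, hs]
        ring
      rcases h2 with h | h
      · rw [h, h3]
      · rw [h, map_neg, h3]
        ring
    have hle : R i ≤ Finset.univ.sup R := Finset.le_sup (Finset.mem_univ i)
    apply hle
    obtain ⟨Y, hY⟩ := hmem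
    refine ⟨Y, ?_⟩
    change ps i Y = Q
    simp only [ps]
    rw [dif_pos hex]
    exact hY
  exact hmain.trans ((hsup _).trans (Finset.sum_le_sum fun i _ => hRle i))

end Main

end Pool.Agent.H747.ESB
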